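import Pool.Agent.Helper18.FF3.Stmts

/-!
# Module PRM: existence of the auxiliary prime
-/

set_option autoImplicit false

namespace Pool.Agent.Helper18.FF3

open Pool.Agent.Helper60.FF

theorem st_PRM : ST_PRM := by
  intro n hn
  obtain ⟨p, hp, hlt, hmod⟩ := Nat.exists_prime_gt_modEq_one (k := 4 * n + 2)
    (4 * n ^ 2 + 12 * n + 6) (by omega)
  exact ⟨p, hp, hn, (Nat.modEq_iff_dvd' hp.one_lt.le).1 hmod.symm, hlt⟩

end Pool.Agent.Helper18.FF3
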